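import Mathlib

/-!
# The number of jumps needed to enlarge a configuration is not bounded in terms of `N`

Already for `N = 3` pieces on a line, the enlargeable configurations
`0, 1, 1 + √(m² + 1)` (`m` even) need arbitrarily many jumps.
-/

set_option autoImplicit false

namespace Pool.Agent.Results.MP_59f6dc_co.UnboundedJumps

/-- A configuration of `N` pieces in the Euclidean space `ℝ ^ d`. -/
abbrev Config (N d : ℕ) : Type := Fin N → EuclideanSpace ℝ (Fin d)

/-- `Jump P Q`: the configuration `Q` arises from `P` by a legal jump, in which a piece `i` moves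
to its mirror image `2 p_j - p_i` through the position of another piece `j`. -/
def Jump {N d : ℕ} (P Q : Config N d) : Prop :=
  ∃ i j : Fin N, i ≠ j ∧ Q = Function.update P i ((2 : ℝ) • P j - P i)

/-- `Reach k P Q`: some sequence of exactly `k` legal jumps takes `P` to `Q`. -/
def Reach {N d : ℕ} : ℕ → Config N d → Config N d → Prop
  | 0, P, Q => P = Q
  | k + 1, P, Q => ∃ R, Jump P R ∧ Reach k R Q

/-- `Q` is similar to `P` but larger: for some `c > 1`, some orthogonal map `A` and some vector `t`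
the multiset of the positions of `Q` is the multiset of the points `c A p_i + t`. -/
def SimilarLarger {N d : ℕ} (P Q : Config N d) : Prop :=
  ∃ (c : ℝ) (A : EuclideanSpace ℝ (Fin d) ≃ₗᵢ[ℝ] EuclideanSpace ℝ (Fin d))
    (t : EuclideanSpace ℝ (Fin d)), 1 < c ∧
      (Finset.univ : Finset (Fin N)).val.map Q =
        (Finset.univ : Finset (Fin N)).val.map (fun i => c • A (P i) + t)

/-- `P` is enlargeable if some finite sequence of legal jumps takes `P` to a configuration similar
to `P` but larger. -/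
def Enlargeable {N d : ℕ} (P : Config N d) : Prop :=
  ∃ (k : ℕ) (Q : Config N d), Reach k P Q ∧ SimilarLarger P Q

/-- `J(P)`: the least number of jumps taking `P` to a configuration similar to `P` but larger. -/
noncomputable def J {N d : ℕ} (P : Config N d) : ℕ :=
  sInf {k : ℕ | ∃ Q : Config N d, Reach k P Q ∧ SimilarLarger P Q}

theorem Reach.trans {N d : ℕ} {k l : ℕ} {P Q R : Config N d} (h1 : Reach k P Q)
    (h2 : Reach l Q R) : Reach (k + l) P R := by
  induction k generalizing P with
  | zero =>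
    have : P = Q := h1
    subst this
    rw [Nat.zero_add]
    exact h2
  | succ k ih =>
    obtain ⟨S, hS, h3⟩ := h1
    rw [show k + 1 + l = (k + l) + 1 by omega]
    exact ⟨S, hS, ih h3⟩

/-! ### The moves used -/

/-- The configuration `a, a + u, a + u + v`. -/
def cfg {d : ℕ} (a u v : EuclideanSpace ℝ (Fin d)) : Config 3 d := ![a, a + u, a + u + v]

theorem moveA {d : ℕ} (a u v : EuclideanSpace ℝ (Fin d)) :
    Reach 2 (cfg a u v) (cfg (a - (2 : ℝ) • u) u (v + (2 : ℝ) • u)) := by
  refine ⟨_, ⟨1, 0, by decide, rfl⟩, _, ⟨0, 1, by decide, rfl⟩, ?_⟩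
  funext i
  fin_cases i
  · simp [cfg]
    module
  · simp [cfg]
    module
  · simp [cfg]
    module

theorem moveB {d : ℕ} (a u v : EuclideanSpace ℝ (Fin d)) :
    Reach 2 (cfg a u v) (cfg a (u + (2 : ℝ) • v) v) := by
  refine ⟨_, ⟨1, 2, by decide, rfl⟩, _, ⟨2, 1, by decide, rfl⟩, ?_⟩
  funext i
  fin_cases i
  · simp [cfg]
  · simp [cfg]
    module
  · simp [cfg]
    module

theorem movesA {d : ℕ} (l : ℕ) (a u v : EuclideanSpace ℝ (Fin d)) :
    ∃ a', Reach (2 * l) (cfg a u v) (cfg a' u (v + (2 * l : ℝ) • u)) := by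
  induction l with
  | zero => exact ⟨a, by simp [Reach]⟩
  | succ l ih =>
    obtain ⟨a', h⟩ := ih
    refine ⟨a' - (2 : ℝ) • u, ?_⟩
    have h2 := h.trans (moveA a' u (v + (2 * l : ℝ) • u))
    have e : v + (2 * l : ℝ) • u + (2 : ℝ) • u = v + (2 * (l + 1 : ℕ) : ℝ) • u := by
      push_cast
      module
    rw [e] at h2
    exact h2

theorem movesB {d : ℕ} (l : ℕ) (a u v : EuclideanSpace ℝ (Fin d)) :
    ∃ a', Reach (2 * l) (cfg a u v) (cfg a' (u + (2 * l : ℝ) • v) v) := by
  induction l with
  | zero => exact ⟨a, by simp [Reach]⟩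
  | succ l ih =>
    obtain ⟨a', h⟩ := ih
    refine ⟨a', ?_⟩
    have h2 := h.trans (moveB a' (u + (2 * l : ℝ) • v) v)
    have e : u + (2 * l : ℝ) • v + (2 : ℝ) • v = u + (2 * (l + 1 : ℕ) : ℝ) • v := by
      push_cast
      module
    rw [e] at h2
    exact h2

/-- The unit vector of `ℝ ^ 1`. -/
noncomputable def e1 : EuclideanSpace ℝ (Fin 1) := EuclideanSpace.single 0 1

/-- The configuration `0, 1, 1 + w` on the line. -/
noncomputable def P0 (w : ℝ) : Config 3 1 := cfg 0 e1 (w • e1)

theorem enlargeable (l : ℕ) (hl : 1 ≤ l) (w : ℝ) (hw : w * w = (2 * l : ℝ) * (2 * l) + 1)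
    (hw0 : 0 < w) : Enlargeable (P0 w) := by
  obtain ⟨a1, h1⟩ := movesA l 0 e1 (w • e1)
  obtain ⟨a2, h2⟩ := movesB (2 * l) a1 e1 (w • e1 + (2 * l : ℝ) • e1)
  obtain ⟨a3, h3⟩ := movesA l a2 (e1 + (2 * (2 * l : ℕ) : ℝ) • (w • e1 + (2 * l : ℝ) • e1))
    (w • e1 + (2 * l : ℝ) • e1)
  have h := (h1.trans h2).trans h3
  set c : ℝ := 8 * l * l + 1 + 4 * l * w with hc
  have hl' : (1 : ℝ) ≤ l := by exact_mod_cast hl
  refine ⟨_, _, h, c, LinearIsometryEquiv.refl ℝ _, a3, ?_, ?_⟩
  · rw [hc]
    nlinarith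
  · congr 1
    have eu : e1 + (2 * (2 * l : ℕ) : ℝ) • (w • e1 + (2 * l : ℝ) • e1) = c • e1 := by
      rw [hc]
      push_cast
      module
    have ev : (w • e1 + (2 * l : ℝ) • e1) + (2 * l : ℝ) • (c • e1) = c • (w • e1) := by
      have : (w + 2 * l + 2 * l * c - c * w) • e1 = 0 := by
        have h0 : w + 2 * l + 2 * l * c - c * w = 0 := by
          rw [hc]
          linear_combination (-(4 * (l : ℝ))) * hw
        rw [h0, zero_smul]
      rw [← sub_eq_zero, ← this]
      module
    rw [eu, ev]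
    funext i
    fin_cases i
    · simp [cfg, P0]
    · simp [cfg, P0]
      module
    · simp [cfg, P0]
      module

/-! ### The lower bound -/

/-- The group generated by the differences of the (first) coordinates of the pieces. -/
def L (Q : Config 3 1) : AddSubgroup ℝ :=
  AddSubgroup.closure {x | ∃ i j : Fin 3, x = Q i 0 - Q j 0}

theorem diff_mem (Q : Config 3 1) (i j : Fin 3) : Q i 0 - Q j 0 ∈ L Q :=
  AddSubgroup.subset_closure ⟨i, j, rfl⟩

theorem L_jump {P Q : Config 3 1} (h : Jump P Q) : L Q ≤ L P := by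
  obtain ⟨i, j, hij, rfl⟩ := h
  unfold L
  rw [AddSubgroup.closure_le]
  rintro x ⟨a, b, rfl⟩
  have key : ∀ c : Fin 3, ∃ y ∈ L P, Function.update P i ((2 : ℝ) • P j - P i) c 0 = P j 0 + y := by
    intro c
    by_cases hc : c = i
    · subst hc
      refine ⟨P j 0 - P c 0, diff_mem P j c, ?_⟩
      simp
      ring
    · refine ⟨P c 0 - P j 0, diff_mem P c j, ?_⟩
      rw [Function.update_of_ne hc]
      ring
  obtain ⟨y, hy, e1⟩ := key a
  obtain ⟨z, hz, e2⟩ := key b
  show _ ∈ L P
  rw [e1, e2, show P j 0 + y - (P j 0 + z) = y - z by ring]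
  exact sub_mem hy hz

theorem Jump.symm {P Q : Config 3 1} (h : Jump P Q) : Jump Q P := by
  obtain ⟨i, j, hij, rfl⟩ := h
  refine ⟨i, j, hij, ?_⟩
  rw [Function.update_of_ne hij.symm, Function.update_self, Function.update_idem, sub_sub_cancel,
    Function.update_eq_self]

theorem L_reach {k : ℕ} {P Q : Config 3 1} (h : Reach k P Q) : L Q = L P := by
  induction k generalizing P with
  | zero =>
    have : P = Q := h
    rw [this]
  | succ k ih =>
    obtain ⟨R, hR, h2⟩ := h
    rw [ih h2]
    exact le_antisymm (L_jump hR) (L_jump hR.symm)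

theorem diam_reach {k : ℕ} {P Q : Config 3 1} (h : Reach k P Q) (B : ℝ)
    (hB : ∀ i j, |P i 0 - P j 0| ≤ B) : ∀ i j, |Q i 0 - Q j 0| ≤ 2 ^ k * B := by
  induction k generalizing P B with
  | zero =>
    have : P = Q := h
    subst this
    simpa using hB
  | succ k ih =>
    obtain ⟨R, ⟨a, b, hab, rfl⟩, h2⟩ := h
    have h3 := ih h2 (2 * B) ?_
    · intro i j
      refine (h3 i j).trans (le_of_eq ?_)
      ring
    · intro i j
      have hB0 : 0 ≤ B := (abs_nonneg _).trans (hB a b)
      by_cases hi : i = a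
      · subst hi
        by_cases hj : j = i
        · subst hj
          simp only [sub_self, abs_zero]
          linarith
        · rw [Function.update_self, Function.update_of_ne hj]
          have e : (((2 : ℝ) • P b - P i) 0 : ℝ) - P j 0 = (P b 0 - P i 0) + (P b 0 - P j 0) := by
            simp
            ring
          rw [e]
          refine (abs_add_le _ _).trans ?_
          have := hB b i
          have := hB b j
          linarith
      · by_cases hj : j = a
        · subst hj
          rw [Function.update_self, Function.update_of_ne hi]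
          have e : P i 0 - (((2 : ℝ) • P b - P j) 0 : ℝ) = (P i 0 - P b 0) + (P j 0 - P b 0) := by
            simp
            ring
          rw [e]
          refine (abs_add_le _ _).trans ?_
          have := hB i b
          have := hB j b
          linarith
        · rw [Function.update_of_ne hi, Function.update_of_ne hj]
          have := hB i j
          linarith

theorem P0_zero (w : ℝ) : P0 w 0 0 = 0 := by simp [P0, cfg]
theorem P0_one (w : ℝ) : P0 w 1 0 = 1 := by simp [P0, cfg, e1]
theorem P0_two (w : ℝ) : P0 w 2 0 = 1 + w := by simp [P0, cfg, e1]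

/-- An orthogonal map of the line is multiplication by a sign. -/
theorem sign_of_isometry (A : EuclideanSpace ℝ (Fin 1) ≃ₗᵢ[ℝ] EuclideanSpace ℝ (Fin 1)) :
    ∃ s : ℝ, (s = 1 ∨ s = -1) ∧ ∀ x, A x 0 = s * x 0 := by
  refine ⟨A e1 0, ?_, fun x => ?_⟩
  · have h : ‖A e1‖ = 1 := by
      rw [A.norm_map]
      simp [e1]
    rw [EuclideanSpace.norm_eq] at h
    simp only [Finset.univ_unique, Fin.default_eq_zero, Fin.isValue, Real.norm_eq_abs, sq_abs,
      Finset.sum_singleton] at h
    have h2 : (A e1 0) ^ 2 = 1 := by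
      have := Real.sqrt_eq_one.1 h
      exact this
    have h3 : (A e1 0 - 1) * (A e1 0 + 1) = 0 := by linear_combination h2
    rcases mul_eq_zero.1 h3 with h | h
    · left; linarith
    · right; linarith
  · have hx : x = (x 0) • e1 := by
      ext i
      fin_cases i
      simp [e1]
    conv_lhs => rw [hx]
    rw [map_smul]
    simp
    ring

theorem L_P0 (w : ℝ) {x : ℝ} (hx : x ∈ L (P0 w)) : ∃ a b : ℤ, x = a + b * w := by
  unfold L at hx
  induction hx using AddSubgroup.closure_induction with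
  | mem x h =>
    obtain ⟨i, j, rfl⟩ := h
    have key : ∀ i : Fin 3, ∃ a b : ℤ, P0 w i 0 = a + b * w := by
      intro i
      fin_cases i
      · exact ⟨0, 0, by simpa using P0_zero w⟩
      · exact ⟨1, 0, by simpa using P0_one w⟩
      · exact ⟨1, 1, by simpa using P0_two w⟩
    obtain ⟨a, b, h1⟩ := key i
    obtain ⟨c, d, h2⟩ := key j
    refine ⟨a - c, b - d, ?_⟩
    rw [h1, h2]
    push_cast
    ring
  | zero => exact ⟨0, 0, by simp⟩
  | add x y _ _ hx hy =>
    obtain ⟨a, b, rfl⟩ := hx
    obtain ⟨c, d, rfl⟩ := hy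
    exact ⟨a + c, b + d, by push_cast; ring⟩
  | neg x _ hx =>
    obtain ⟨a, b, rfl⟩ := hx
    exact ⟨-a, -b, by push_cast; ring⟩

/-- A unit `> 1` of `ℤ[w]`, `w = √D`, is at least `2 w - 1`. -/
theorem unit_lower {D : ℤ} {w c : ℝ} (hw : w * w = D) (hw0 : 0 < w) (hirr : Irrational w)
    (hc : 1 < c) {a b a' b' : ℤ} (h1 : c = a + b * w) (h2 : 1 = c * (a' + b' * w)) :
    2 * w - 1 ≤ c := by
  have hb' : (a * b' + b * a' : ℤ) = 0 := by
    by_contra hne
    have hne' : ((a * b' + b * a' : ℤ) : ℝ) ≠ 0 := by exact_mod_cast hne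
    have e : w = ((1 - a * a' - b * b' * D : ℤ) : ℝ) / ((a * b' + b * a' : ℤ) : ℝ) := by
      rw [eq_div_iff hne']
      push_cast
      rw [h1] at h2
      linear_combination (-1 : ℝ) * h2 - (b * b' : ℝ) * hw
    apply hirr
    refine ⟨(1 - a * a' - b * b' * D : ℤ) / (a * b' + b * a' : ℤ), ?_⟩
    rw [e]
    push_cast
    ring
  have ha' : (a * a' + b * b' * D : ℤ) = 1 := by
    have hb'' : ((a : ℝ) * b' + b * a') = 0 := by exact_mod_cast hb'
    have e : ((a * a' + b * b' * D : ℤ) : ℝ) = 1 := by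
      push_cast
      rw [h1] at h2
      linear_combination (-1 : ℝ) * h2 - (b * b' : ℝ) * hw - w * hb''
    exact_mod_cast e
  have hnorm : (a * a - D * (b * b)) * (a' * a' - D * (b' * b')) = 1 := by
    linear_combination (a * a' + b * b' * D + 1) * ha' - D * (a * b' + b * a') * hb'
  have hunit : a * a - D * (b * b) = 1 ∨ a * a - D * (b * b) = -1 :=
    Int.eq_one_or_neg_one_of_mul_eq_one hnorm
  have hb0 : b ≠ 0 := by
    rintro rfl
    have h3 : c = a := by rw [h1]; simp
    have h4 : (1 : ℤ) < a := by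
      have : (1 : ℝ) < a := h3 ▸ hc
      exact_mod_cast this
    rcases hunit with h | h <;> nlinarith
  have hprod : c * (a - b * w) = 1 ∨ c * (a - b * w) = -1 := by
    have e : c * (a - b * w) = ((a * a - D * (b * b) : ℤ) : ℝ) := by
      push_cast
      rw [h1]
      linear_combination (-(b * b : ℝ)) * hw
    rw [e]
    rcases hunit with h | h
    · left; rw [h]; norm_num
    · right; rw [h]; norm_num
  have hsmall : |a - b * w| < 1 := by
    have h5 : |c| * |a - b * w| = 1 := by
      rw [← abs_mul]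
      rcases hprod with h | h <;> rw [h] <;> norm_num
    rw [abs_of_pos (by linarith)] at h5
    by_contra hge
    push Not at hge
    nlinarith
  have hb1 : (1 : ℝ) ≤ |(b : ℝ)| := by
    have : (1 : ℤ) ≤ |b| := Int.one_le_abs hb0
    exact_mod_cast this
  have h6 : 2 * (|(b : ℝ)| * w) ≤ c + 1 := by
    have e : 2 * ((b : ℝ) * w) = c - (a - b * w) := by rw [h1]; ring
    have e2 : |2 * ((b : ℝ) * w)| = 2 * (|(b : ℝ)| * w) := by
      rw [abs_mul, abs_mul, abs_of_pos hw0]
      norm_num
    rw [← e2, e]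
    refine (abs_sub _ _).trans ?_
    rw [abs_of_pos (show (0 : ℝ) < c by linarith)]
    linarith
  nlinarith

theorem lower (l : ℕ) (hl : 1 ≤ l) (w : ℝ) (hw : w * w = (2 * l : ℝ) * (2 * l) + 1)
    (hw0 : 0 < w) {k : ℕ} {Q : Config 3 1} (hk : Reach k (P0 w) Q)
    (hQ : SimilarLarger (P0 w) Q) : 2 * w - 1 ≤ 2 ^ k := by
  obtain ⟨c, A, t, hc, hmul⟩ := hQ
  obtain ⟨s, hs, hA⟩ := sign_of_isometry A
  have hs2 : |s| = 1 := by rcases hs with h | h <;> rw [h] <;> norm_num
  have hss : s * s = 1 := by rcases hs with h | h <;> rw [h] <;> norm_num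
  -- the pieces of `Q` are images of the pieces of `P0 w` and conversely
  have f1 : ∀ i : Fin 3, ∃ j : Fin 3, Q j 0 = c * (s * P0 w i 0) + t 0 := by
    intro i
    have h : c • A (P0 w i) + t ∈ (Finset.univ : Finset (Fin 3)).val.map Q := by
      rw [hmul]
      exact Multiset.mem_map_of_mem (fun i => c • A (P0 w i) + t) (Finset.mem_univ i)
    obtain ⟨j, -, hj⟩ := Multiset.mem_map.1 h
    refine ⟨j, ?_⟩
    rw [hj, ← hA]
    simp
  have f2 : ∀ j : Fin 3, ∃ i : Fin 3, Q j 0 = c * (s * P0 w i 0) + t 0 := by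
    intro j
    have h : Q j ∈ (Finset.univ : Finset (Fin 3)).val.map (fun i => c • A (P0 w i) + t) := by
      rw [← hmul]
      exact Multiset.mem_map_of_mem Q (Finset.mem_univ j)
    obtain ⟨i, -, hi⟩ := Multiset.mem_map.1 h
    refine ⟨i, ?_⟩
    rw [← hi, ← hA]
    simp
  have hL := L_reach hk
  -- `c` lies in the lattice
  have hcL : c ∈ L (P0 w) := by
    obtain ⟨j0, h0⟩ := f1 0
    obtain ⟨j1, h1⟩ := f1 1
    have hm : Q j1 0 - Q j0 0 ∈ L (P0 w) := hL ▸ diff_mem Q j1 j0
    have e : Q j1 0 - Q j0 0 = c * s := by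
      rw [h0, h1, P0_zero, P0_one]
      ring
    rw [e] at hm
    rcases hs with h | h
    · rw [h, mul_one] at hm
      exact hm
    · rw [h, mul_neg_one] at hm
      simpa using neg_mem hm
  -- `1` lies in `c` times the lattice
  have h1L : ∃ y ∈ L (P0 w), (1 : ℝ) = c * y := by
    have h1 : (1 : ℝ) ∈ L Q := by
      rw [hL]
      have := diff_mem (P0 w) 1 0
      rw [P0_zero, P0_one, sub_zero] at this
      exact this
    have gen : ∀ x ∈ L Q, ∃ y ∈ L (P0 w), x = c * y := by
      intro x hx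
      unfold L at hx
      induction hx using AddSubgroup.closure_induction with
      | mem x h =>
        obtain ⟨i, j, rfl⟩ := h
        obtain ⟨i', hi'⟩ := f2 i
        obtain ⟨j', hj'⟩ := f2 j
        rcases hs with h | h
        · refine ⟨_, diff_mem (P0 w) i' j', ?_⟩
          rw [hi', hj', h]
          ring
        · refine ⟨_, diff_mem (P0 w) j' i', ?_⟩
          rw [hi', hj', h]
          ring
      | zero => exact ⟨0, zero_mem _, by simp⟩
      | add x y _ _ hx hy =>
        obtain ⟨a, ha, rfl⟩ := hx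
        obtain ⟨b, hb, rfl⟩ := hy
        exact ⟨a + b, add_mem ha hb, by ring⟩
      | neg x _ hx =>
        obtain ⟨a, ha, rfl⟩ := hx
        exact ⟨-a, neg_mem ha, by ring⟩
    exact gen 1 h1
  obtain ⟨a, b, hab⟩ := L_P0 w hcL
  obtain ⟨y, hy, hcy⟩ := h1L
  obtain ⟨a', b', hab'⟩ := L_P0 w hy
  rw [hab'] at hcy
  -- irrationality of `w`
  have hirr : Irrational w := by
    have hw' : w = √((((2 * l) * (2 * l) + 1 : ℕ)) : ℝ) := by
      rw [eq_comm, Real.sqrt_eq_iff_mul_self_eq (by positivity) hw0.le]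
      push_cast
      linarith
    rw [hw', irrational_sqrt_natCast_iff]
    rintro ⟨r, hr⟩
    have h1 : 2 * l < r := by nlinarith
    have h2 : r < 2 * l + 1 := by nlinarith
    omega
  have hD : w * w = (((2 * l) * (2 * l) + 1 : ℤ) : ℝ) := by
    push_cast
    exact hw
  have hcw := unit_lower hD hw0 hirr hc hab hcy
  -- growth of the diameter
  have hdiam := diam_reach hk (1 + w) (by
    intro i j
    fin_cases i <;> fin_cases j <;>
      simp only [Fin.zero_eta, Fin.mk_one, Fin.reduceFinMk, P0_zero, P0_one, P0_two] <;>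
      rw [abs_le] <;> constructor <;> linarith)
  obtain ⟨j0, h0⟩ := f1 0
  obtain ⟨j2, h2⟩ := f1 2
  have h3 := hdiam j2 j0
  rw [h0, h2, P0_zero, P0_two] at h3
  have e : c * (s * (1 + w)) + t 0 - (c * (s * 0) + t 0) = s * (c * (1 + w)) := by ring
  rw [e, abs_mul, hs2, one_mul, abs_of_pos (by positivity)] at h3
  have h4 : c ≤ 2 ^ k := le_of_mul_le_mul_right h3 (by linarith)
  linarith

/-- **Theorem.** For every `K` there is an enlargeable configuration `P` of three distinct points
of the line with `J(P) > K`.  So there is no function `f` such that `J(P) ≤ f(N)` for every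
enlargeable configuration `P` of `N` pieces in any dimension `d ≥ 1`. -/
theorem result :
    (∀ K : ℕ, ∃ P : Config 3 1, Function.Injective P ∧ Enlargeable P ∧ K < J P) ∧
    ¬ ∃ f : ℕ → ℕ, ∀ (N d : ℕ), 1 ≤ d → ∀ P : Config N d, Enlargeable P → J P ≤ f N := by
  have key : ∀ K : ℕ, ∃ P : Config 3 1, Function.Injective P ∧ Enlargeable P ∧ K < J P := by
    intro K
    set l : ℕ := 2 ^ K with hl
    have hl1 : 1 ≤ l := Nat.one_le_two_pow
    set w : ℝ := √((2 * l : ℝ) * (2 * l) + 1) with hw
    have hww : w * w = (2 * l : ℝ) * (2 * l) + 1 := Real.mul_self_sqrt (by positivity)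
    have hw0 : 0 < w := Real.sqrt_pos.2 (by positivity)
    have hE := enlargeable l hl1 w hww hw0
    refine ⟨P0 w, ?_, hE, ?_⟩
    · intro i j hij
      have h0 : P0 w i 0 = P0 w j 0 := by rw [hij]
      by_contra hne
      fin_cases i <;> fin_cases j <;> first
        | exact hne rfl
        | (simp only [Fin.zero_eta, Fin.mk_one, Fin.reduceFinMk, P0_zero, P0_one, P0_two] at h0
           linarith)
    · have hne : {k : ℕ | ∃ Q : Config 3 1, Reach k (P0 w) Q ∧ SimilarLarger (P0 w) Q}.Nonempty := by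
        obtain ⟨k, Q, h⟩ := hE
        exact ⟨k, Q, h⟩
      obtain ⟨Q, hQ1, hQ2⟩ := Nat.sInf_mem hne
      have h := lower l hl1 w hww hw0 hQ1 hQ2
      have h2 : (2 * l : ℝ) < w := by
        rw [hw]
        apply Real.lt_sqrt_of_sq_lt
        nlinarith
      have hl' : ((2 : ℝ) ^ K) = l := by rw [hl]; push_cast; rfl
      have h1l : (1 : ℝ) ≤ l := by exact_mod_cast hl1
      have h3 : (2 : ℝ) ^ K < 2 ^ (J (P0 w)) := by
        have : 2 * w - 1 ≤ 2 ^ (J (P0 w)) := h
        rw [hl']
        linarith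
      exact (pow_lt_pow_iff_right₀ (by norm_num : (1 : ℝ) < 2)).1 h3
  refine ⟨key, ?_⟩
  rintro ⟨f, hf⟩
  obtain ⟨P, -, hP, hJ⟩ := key (f 3)
  exact absurd (hf 3 1 le_rfl P hP) (by omega)

end Pool.Agent.Results.MP_59f6dc_co.UnboundedJumps
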